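import Pool.Agent.Lib.MP_a78e1f_lc.K.Iface

/-!
# LBF: an interpretation which follows a given name as long as possible
-/

universe u v w

open Cardinal Filter

namespace Pool.Agent.Lib.MP_a78e1f_lc.H43

open Pool.Agent.Lib.MP_100a6c_lc
open Pool.Agent.Lib.MP_e6fef2_lc
open Pool.Agent.Lib.MP_6d445e_gt

section

variable {A C : Type u} [CompleteBooleanAlgebra A] [CompleteBooleanAlgebra C]

omit [CompleteBooleanAlgebra A] in
theorem agrF_zero (f : A → C) (Z : ℕ → ℕ → A) (F : ℕ → ℕ → C) : agrF f Z F 0 = ⊤ := by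
  simp [agrF]

omit [CompleteBooleanAlgebra A] in
theorem agrF_succ (f : A → C) (Z : ℕ → ℕ → A) (F : ℕ → ℕ → C) (k : ℕ) :
    agrF f Z F (k + 1) = agrF f Z F k ⊓ ⨆ j, f (Z k j) ⊓ F k j := by
  unfold agrF
  exact Nat.iInf_lt_succ _ k

omit [CompleteBooleanAlgebra A] in
theorem mem_agrF (f : A → C) (Z : ℕ → ℕ → A) (F : ℕ → ℕ → C) : ∀ᶠ h in ae C, ∀ k,
    agrF f Z F k ∈ h ↔ ∀ p < k, ∃ j, f (Z p j) ∈ h ∧ F p j ∈ h := by
  have h1 : ∀ᶠ h in ae C, ∀ p, (⨆ j, f (Z p j) ⊓ F p j) ∈ h ↔ ∃ j, f (Z p j) ⊓ F p j ∈ h :=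
    ae_all fun p => ae_iSup _
  filter_upwards [h1] with h h1 k
  induction k with
  | zero => simp [agrF_zero, h.mem_top]
  | succ k ih =>
    rw [agrF_succ, h.mem_inf, ih, h1]
    simp only [h.mem_inf]
    constructor
    · rintro ⟨h2, h3⟩ n hn
      rcases Nat.lt_succ_iff_lt_or_eq.1 hn with hn | rfl
      · exact h2 n hn
      · exact h3
    · intro h2
      exact ⟨fun n hn => h2 n (by omega), h2 k (by omega)⟩

/-- One step of the recursion: the values `a j` are the possible ones, `y` is followed if possible. -/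
def nz (a y : ℕ → A) (j : ℕ) : A :=
  (y j ⊓ a j) ⊔ ((⨆ i, y i ⊓ a i)ᶜ ⊓
    ((a j ⊓ ⨅ i, ⨅ _ : i < j, (a i)ᶜ) ⊔ ⨆ _ : j = 0, (⨆ i, a i)ᶜ))

/-- Almost everywhere, `nz a y` is computed from `a` and `y` as intended. -/
theorem mem_nz (a y : ℕ → A) : ∀ᶠ g in ae A, ∀ j, nz a y j ∈ g ↔
    (y j ∈ g ∧ a j ∈ g) ∨ ((¬ ∃ i, y i ∈ g ∧ a i ∈ g) ∧
      ((a j ∈ g ∧ ∀ i < j, a i ∉ g) ∨ (j = 0 ∧ ¬ ∃ i, a i ∈ g))) := by
  have h1 : ∀ᶠ g in ae A, ((⨆ i, y i ⊓ a i) ∈ g ↔ ∃ i, y i ⊓ a i ∈ g) := ae_iSup _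
  have h2 : ∀ᶠ g in ae A, ((⨆ i, a i) ∈ g ↔ ∃ i, a i ∈ g) := ae_iSup _
  have h3 : ∀ᶠ g in ae A, ∀ j, ((⨅ i, ⨅ _ : i < j, (a i)ᶜ) ∈ g ↔ ∀ i, (⨅ _ : i < j, (a i)ᶜ) ∈ g) :=
    ae_all fun j => ae_iInf _
  filter_upwards [h1, h2, h3] with g h1 h2 h3 j
  have h4 : (⨅ i, ⨅ _ : i < j, (a i)ᶜ) ∈ g ↔ ∀ i < j, a i ∉ g := by
    rw [h3]
    refine forall_congr' fun i => ?_
    by_cases hi : i < j
    · simp [hi, g.mem_compl]
    · simp [hi, g.mem_top]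
  have h5 : (⨆ _ : j = 0, (⨆ i, a i)ᶜ) ∈ g ↔ (j = 0 ∧ ¬ ∃ i, a i ∈ g) := by
    by_cases hj : j = 0
    · simp [hj, g.mem_compl, h2]
    · simp [hj, g.not_bot]
  unfold nz
  rw [g.mem_sup, g.mem_inf, g.mem_inf, g.mem_compl, g.mem_sup, g.mem_inf, h1, h4, h5]
  simp only [g.mem_inf]

/-- The next value is unique. -/
theorem ex_nz {a y : ℕ → A} (hy : ∀ᶠ g in ae A, ∃! k, y k ∈ g) :
    ∀ᶠ g in ae A, ∃! k, nz a y k ∈ g := by
  classical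
  filter_upwards [mem_nz a y, hy] with g h1 h2
  by_cases h3 : ∃ i, y i ∈ g ∧ a i ∈ g
  · obtain ⟨i, hi⟩ := h3
    refine ⟨i, (h1 i).2 (Or.inl hi), fun k hk => ?_⟩
    rcases (h1 k).1 hk with h4 | ⟨h4, -⟩
    · exact h2.unique h4.1 hi.1
    · exact absurd ⟨i, hi⟩ h4
  · by_cases h4 : ∃ i, a i ∈ g
    · refine ⟨Nat.find h4, (h1 _).2 (Or.inr ⟨h3, Or.inl ⟨Nat.find_spec h4,
        fun i hi => Nat.find_min h4 hi⟩⟩), fun k hk => ?_⟩
      rcases (h1 k).1 hk with h5 | ⟨-, ⟨h5, h6⟩ | ⟨-, h6⟩⟩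
      · exact absurd ⟨k, h5⟩ h3
      · refine le_antisymm ?_ (Nat.find_min' h4 h5)
        by_contra hc
        push Not at hc
        exact h6 _ hc (Nat.find_spec h4)
      · exact absurd h4 h6
    · refine ⟨0, (h1 _).2 (Or.inr ⟨h3, Or.inr ⟨rfl, h4⟩⟩), fun k hk => ?_⟩
      rcases (h1 k).1 hk with h5 | ⟨-, ⟨h5, h6⟩ | ⟨h6, -⟩⟩
      · exact absurd ⟨k, h5⟩ h3
      · exact absurd ⟨k, h5⟩ h4
      · exact h6

/-- The next value is possible if there is a possible value. -/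
theorem sup_nz {a y : ℕ → A} (hy : ∀ᶠ g in ae A, ∃! k, y k ∈ g) :
    (⨆ j, a j) ≤ ⨆ j, a j ⊓ nz a y j := by
  apply le_of_ae
  filter_upwards [mem_nz a y, ex_nz (a := a) hy, ae_iSup a, ae_iSup fun j => a j ⊓ nz a y j]
    with g h1 h2 h3 h4 h5
  rw [h3] at h5
  rw [h4]
  obtain ⟨k, hk, -⟩ := h2
  refine ⟨k, g.mem_inf.2 ⟨?_, hk⟩⟩
  rcases (h1 k).1 hk with h6 | ⟨-, ⟨h6, -⟩ | ⟨-, h6⟩⟩
  · exact h6.2
  · exact h6
  · exact absurd h5 h6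

/-- The possible values of `F` at `k`. -/
def poss (f : A → C) (c u : C) (x : ℕ → C) (j : ℕ) : A := prj f (c ⊓ u ⊓ x j)

/-- The values of `agrF f Z F k` and the interpretation. -/
def us (f : A → C) (c : C) (F : ℕ → ℕ → C) (Y : ℕ → ℕ → A) (k : ℕ) : C :=
  Nat.rec ⊤ (fun k u => u ⊓ ⨆ j, f (nz (poss f c u (F k)) (Y k) j) ⊓ F k j) k

/-- The interpretation. -/
def zi (f : A → C) (c : C) (F : ℕ → ℕ → C) (Y : ℕ → ℕ → A) (k j : ℕ) : A :=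
  nz (poss f c (us f c F Y k) (F k)) (Y k) j

theorem us_succ (f : A → C) (c : C) (F : ℕ → ℕ → C) (Y : ℕ → ℕ → A) (k : ℕ) :
    us f c F Y (k + 1) = us f c F Y k ⊓ ⨆ j, f (zi f c F Y k j) ⊓ F k j := rfl

theorem agrF_zi (f : A → C) (c : C) (F : ℕ → ℕ → C) (Y : ℕ → ℕ → A) (k : ℕ) :
    agrF f (zi f c F Y) F k = us f c F Y k := by
  induction k with
  | zero => exact agrF_zero _ _ _
  | succ k ih => rw [agrF_succ, ih, us_succ]

theorem prj_dist {f : A → C} (hf : IsCE f) (c : C) (Z : ℕ → A) (x : ℕ → C) :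
    prj f (c ⊓ ⨆ j, f (Z j) ⊓ x j) = ⨆ j, prj f (c ⊓ x j) ⊓ Z j := by
  have h1 := (all_alg A C f hf).2.2.2.2.2.2.2.2.2.2.2.2.2.2.1
  have h2 := (all_alg A C f hf).2.2.2.2.2.2.2.2.2.2.2.2.2.2.2.2.1
  rw [inf_iSup_eq, h1]
  refine iSup_congr fun j => ?_
  rw [← h2]
  congr 1
  ac_rfl

theorem prj_zi {f : A → C} (hf : IsCE f) (c : C) {F : ℕ → ℕ → C} {Y : ℕ → ℕ → A}
    (hF : IsFN F) (hY : IsFN Y) (k : ℕ) : prj f c ≤ prj f (c ⊓ agrF f (zi f c F Y) F k) := by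
  rw [agrF_zi]
  induction k with
  | zero =>
    change prj f c ≤ prj f (c ⊓ ⊤)
    rw [inf_top_eq]
  | succ k ih =>
    refine ih.trans ?_
    rw [us_succ, ← inf_assoc, prj_dist hf]
    have h1 := (all_alg A C f hf).2.2.2.2.2.2.2.2.2.2.2.2.2.2.1
    have h2 : (⨆ j, F k j) = ⊤ := by
      apply eq_top_iff.2
      apply le_of_ae
      filter_upwards [hF, ae_iSup fun j => F k j] with h h2 h3 _
      rw [h3]
      exact (h2 k).exists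
    have h3 : prj f (c ⊓ us f c F Y k) = ⨆ j, poss f c (us f c F Y k) (F k) j := by
      unfold poss
      rw [← h1, ← inf_iSup_eq, h2, inf_top_eq]
    rw [h3]
    exact sup_nz (hY.mono fun g hg => hg k)

theorem follow {f : A → C} (hf : IsCE f) (c : C) {F : ℕ → ℕ → C} {Y : ℕ → ℕ → A}
    (hF : IsFN F) (hY : IsFN Y) (k : ℕ) :
    prj f (c ⊓ agrF f Y F k) ≤ agrF (fun a : A => a) Y (zi f c F Y) k := by
  have hmono := (all_alg A C f hf).2.2.2.2.2.2.2.2.2.2.2.2.1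
  have hlin := (all_alg A C f hf).2.2.2.2.2.2.2.2.2.2.2.2.2.2.2.2.1
  induction k with
  | zero => rw [agrF_zero, agrF_zero]; exact le_top
  | succ k ih =>
    have h1 : prj f (c ⊓ agrF f Y F (k + 1)) ≤ agrF (fun a : A => a) Y (zi f c F Y) k := by
      refine (hmono _ _ ?_).trans ih
      rw [agrF_succ]
      exact inf_le_inf_left _ inf_le_left
    have h2 : prj f (c ⊓ agrF f Y F (k + 1)) ≤
        prj f (c ⊓ us f c F Y k ⊓ ⨆ j, f (Y k j) ⊓ F k j) := by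
      rw [← inf_eq_left.2 h1, ← hlin]
      apply hmono
      apply le_of_ae
      filter_upwards [mem_agrF f Y F, mem_agrF f (zi f c F Y) F,
        ae_pull hf (mem_agrF (fun a : A => a) Y (zi f c F Y)), ae_pull hf hY, hF,
        ae_iSup fun j => f (Y k j) ⊓ F k j] with g g1 g2 g3 g4 g5 g6 hg
      rw [← agrF_zi]
      rw [g.mem_inf, g.mem_inf, g1] at hg
      obtain ⟨⟨hc, hyx⟩, hyz⟩ := hg
      have hyz' := (g3 k).1 hyz
      rw [g.mem_inf, g.mem_inf, g2, g6]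
      refine ⟨⟨hc, fun n hn => ?_⟩, ?_⟩
      · obtain ⟨j, hj1, hj2⟩ := hyx n (by omega)
        obtain ⟨i, hi1, hi2⟩ := hyz' n hn
        have e : i = j := (g4 n).unique hi1 hj1
        subst e
        exact ⟨i, hi2, hj2⟩
      · obtain ⟨j, hj1, hj2⟩ := hyx k (by omega)
        exact ⟨j, g.mem_inf.2 ⟨hj1, hj2⟩⟩
    rw [prj_dist hf] at h2
    rw [agrF_succ (fun a : A => a)]
    refine le_inf h1 (h2.trans ?_)
    apply le_of_ae
    filter_upwards [mem_nz (poss f c (us f c F Y k) (F k)) (Y k),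
      ae_iSup fun j => prj f (c ⊓ us f c F Y k ⊓ F k j) ⊓ Y k j,
      ae_iSup fun j => Y k j ⊓ zi f c F Y k j] with g g1 g2 g3 hg
    rw [g2] at hg
    rw [g3]
    obtain ⟨j, hj⟩ := hg
    rw [g.mem_inf] at hj
    exact ⟨j, g.mem_inf.2 ⟨hj.2, (g1 j).2 (Or.inl ⟨hj.2, hj.1⟩)⟩⟩

end

theorem lbf : LbfStatement.{u} := by
  intro A C _ _ f hf c F Y hF hY
  refine ⟨zi f c F Y, ?_, ?_, fun k => follow hf c hF hY k⟩
  · refine ae_all fun k => ?_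
    exact ex_nz (hY.mono fun g hg => hg k)
  · unfold itpF
    exact le_iInf fun k => prj_zi hf c hF hY k

end Pool.Agent.Lib.MP_a78e1f_lc.H43
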